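import Mathlib

/-!
# Sequences of flips and products with the projective line: data and known facts
-/

namespace Pool.Agent.N522.FK

/-- `ℚ`-factorial klt pairs over bases, and flips. -/
structure Theory where
  /-- triples: a `ℚ`-factorial klt pair `(X, Δ)` with a projective surjective morphism `X → S` -/
  Pair : Type
  /-- `dim X` -/
  dim : Pair → ℕ
  /-- `K_X + Δ` is pseudo-effective over `S` -/
  Peff : Pair → Prop
  /-- `Flip P P'`: `P'` is obtained from `P` by a `(K_X + Δ)`-flip over `S` -/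
  Flip : Pair → Pair → Prop
  /-- `(X × ℙ^1, Δ × ℙ^1)` over `S` -/
  timesP1 : Pair → Pair

variable {T : Theory}

/-- Every sequence of flips over `S` starting from `P` is finite. -/
def Term (P : T.Pair) : Prop := ¬ ∃ s : ℕ → T.Pair, s 0 = P ∧ ∀ n, T.Flip (s n) (s (n + 1))

/-- Q1 for pairs of dimension `n` -/
def Q1 (T : Theory) (n : ℕ) : Prop := ∀ P : T.Pair, T.dim P = n → ¬ T.Peff P → Term P

/-- Termination of all sequences of flips of `ℚ`-factorial klt pairs of dimension `n`, with no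
condition on pseudo-effectivity -/
def AllTerm (T : Theory) (n : ℕ) : Prop := ∀ P : T.Pair, T.dim P = n → Term P

/-- Elementary facts on `X × ℙ^1`. -/
structure Facts (T : Theory) : Prop where
  dim_P1 : ∀ P : T.Pair, T.dim (T.timesP1 P) = T.dim P + 1
  /-- the curves `{x} × ℙ^1` cover `X × ℙ^1` and have negative degree -/
  not_peff : ∀ P : T.Pair, ¬ T.Peff (T.timesP1 P)
  /-- `NE(X × ℙ^1 / S) = NE(X / S) ⊕ ℝ_{≥0}`, `Cl(X × ℙ^1) = Cl(X) ⊕ ℤ` -/
  flip_P1 : ∀ P P' : T.Pair, T.Flip P P' → T.Flip (T.timesP1 P) (T.timesP1 P')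

/-- The trick. -/
theorem allTerm_of_q1 (F : Facts T) (n : ℕ) (h : Q1 T (n + 1)) : AllTerm T n := by
  rintro P hP ⟨s, hs, hs'⟩
  refine h (T.timesP1 P) (by rw [F.dim_P1, hP]) (F.not_peff P)
    ⟨fun k => T.timesP1 (s k), by simp only [hs], fun k => ?_⟩
  exact F.flip_P1 _ _ (hs' k)

end Pool.Agent.N522.FK
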